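import Pool.Agent.H92.EC.X

/-!
# Project EC, STEP 3: the integral over `w`

`b = F z`, `c = F' z`, `e = F'' z`, `dl = delta`; the kernel is
`u = y ^ kap * (|w - b|^2 + dl^2) ^ (-q/2)`; `UX`, `UY`, `UXY` are its derivatives.
-/

set_option autoImplicit false

open Set MeasureTheory Filter Topology

namespace H92.EC

/-- `|w - b|^2 + dl^2` -/
noncomputable def MW (dl : ℝ) (b w : ℂ) : ℝ := ‖w - b‖ ^ 2 + dl ^ 2

/-- `d_x u` -/
noncomputable def UX (q kap dl y : ℝ) (b c w : ℂ) : ℝ :=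
  q * y ^ kap * MW dl b w ^ (-(q / 2) - 1) * ((starRingEnd ℂ) (w - b) * c).re

/-- `d_y u` -/
noncomputable def UY (q kap dl y : ℝ) (b c w : ℂ) : ℝ :=
  kap * y ^ (kap - 1) * MW dl b w ^ (-(q / 2)) +
    q * y ^ kap * MW dl b w ^ (-(q / 2) - 1) * ((starRingEnd ℂ) (w - b) * (Complex.I * c)).re

/-- `d_x d_y u` -/
noncomputable def UXY (q kap dl y : ℝ) (b c e w : ℂ) : ℝ :=
  kap * q * y ^ (kap - 1) * MW dl b w ^ (-(q / 2) - 1) * ((starRingEnd ℂ) (w - b) * c).re +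
    q * y ^ kap * (MW dl b w ^ (-(q / 2) - 1) * ((starRingEnd ℂ) (w - b) * (Complex.I * e)).re +
      (q + 2) * MW dl b w ^ (-(q / 2) - 2) * ((starRingEnd ℂ) (w - b) * (Complex.I * c)).re *
        ((starRingEnd ℂ) (w - b) * c).re)

/-- the parametrisation of the `w` plane -/
noncomputable def ww (y : ℝ) (b c : ℂ) (p : ℝ × ℝ) : ℂ :=
  b - (y : ℂ) * c * ((p.2 : ℂ) + (p.1 : ℂ) * Complex.I)

/-- multiplication by a nonzero complex number scales the integral -/
theorem integral_comp_mul (c : ℂ) (hc : c ≠ 0) (g : ℂ → ℝ) :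
    ∫ z, g (c * z) = (‖c‖ ^ 2)⁻¹ * ∫ z, g z := by
  have hdet : LinearMap.det (Algebra.lmul ℝ ℂ c) = ‖c‖ ^ 2 := by
    rw [← Algebra.norm_apply, Algebra.norm_complex_apply, Complex.normSq_eq_norm_sq]
  have hn : (0 : ℝ) < ‖c‖ ^ 2 := by positivity
  have h1 := MeasureTheory.Measure.map_linearMap_addHaar_eq_smul_addHaar (μ := (volume : Measure ℂ))
    (f := Algebra.lmul ℝ ℂ c) (by rw [hdet]; exact hn.ne')
  rw [hdet] at h1
  have h2 : (⇑(Algebra.lmul ℝ ℂ c) : ℂ → ℂ) = fun z => c * z := by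
    ext z
    simp
  rw [h2] at h1
  have h3 : MeasurableEmbedding (fun z : ℂ => c * z) := measurableEmbedding_mulLeft₀ hc
  have h4 := h3.integral_map (μ := (volume : Measure ℂ)) g
  rw [← h4, h1, integral_smul_measure, ENNReal.toReal_ofReal (abs_nonneg _), smul_eq_mul,
    abs_of_pos (inv_pos.mpr hn)]

theorem integral_ww (y : ℝ) (hy : 0 < y) (b c : ℂ) (hc : c ≠ 0) (g : ℂ → ℝ) :
    ∫ w, g w = (y * ‖c‖) ^ 2 * ∫ p : ℝ × ℝ, g (ww y b c p) := by
  have hyc : (y : ℂ) * c ≠ 0 := mul_ne_zero (by exact_mod_cast hy.ne') hc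
  have hn : ‖(y : ℂ) * c‖ = y * ‖c‖ := by
    rw [norm_mul, Complex.norm_real, Real.norm_eq_abs, abs_of_pos hy]
  have hpos : 0 < (y * ‖c‖) ^ 2 := by positivity
  have h1 : ∫ w, g w = ∫ w, g (b - w) := (integral_sub_left_eq_self g volume b).symm
  have h2 := integral_comp_mul ((y : ℂ) * c) hyc (fun w => g (b - w))
  rw [hn] at h2
  have h3 : ∫ z : ℂ, g (b - (y : ℂ) * c * z) =
      ∫ p : ℝ × ℝ, g (b - (y : ℂ) * c * Complex.measurableEquivRealProd.symm p) :=
    (Complex.volume_preserving_equiv_real_prod.symm.integral_comp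
      Complex.measurableEquivRealProd.symm.measurableEmbedding
      (fun z => g (b - (y : ℂ) * c * z))).symm
  have h4 : ∫ p : ℝ × ℝ, g (b - (y : ℂ) * c * Complex.measurableEquivRealProd.symm p) =
      ∫ p : ℝ × ℝ, g (ww y b c p) := by
    have h5 := (Measure.measurePreserving_swap (μ := (volume : Measure ℝ))
      (ν := (volume : Measure ℝ))).integral_comp MeasurableEquiv.prodComm.measurableEmbedding
      (fun p : ℝ × ℝ => g (b - (y : ℂ) * c * Complex.measurableEquivRealProd.symm p))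
    rw [Measure.volume_eq_prod, ← h5]
    apply integral_congr_ae
    filter_upwards with p
    unfold ww
    congr 3
    apply Complex.ext <;> simp [Complex.measurableEquivRealProd]
  rw [h1, ← h4, ← h3, h2, ← mul_assoc, mul_inv_cancel₀ hpos.ne', one_mul]

section params

variable {q kap dl y : ℝ} {b c e : ℂ}

theorem MW_ww (hy : 0 < y) (hc : c ≠ 0) (p : ℝ × ℝ) :
    MW dl b (ww y b c p) = (y * ‖c‖) ^ 2 * mm (dl / (y * ‖c‖)) p := by
  have hn : 0 < ‖c‖ := norm_pos_iff.mpr hc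
  unfold MW ww mm
  have h1 : b - (y : ℂ) * c * ((p.2 : ℂ) + (p.1 : ℂ) * Complex.I) - b =
      -((y : ℂ) * c * ((p.2 : ℂ) + (p.1 : ℂ) * Complex.I)) := by ring
  rw [h1, norm_neg, norm_mul, norm_mul, Complex.norm_real, Real.norm_eq_abs, abs_of_pos hy,
    mul_pow, ← Complex.normSq_eq_norm_sq ((p.2 : ℂ) + (p.1 : ℂ) * Complex.I),
    Complex.normSq_add_mul_I]
  field_simp
  ring

theorem dot_x (y : ℝ) (b c : ℂ) (p : ℝ × ℝ) :
    ((starRingEnd ℂ) (ww y b c p - b) * c).re = -(y * ‖c‖ ^ 2 * p.2) := by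
  have h0 : ‖c‖ ^ 2 = c.re ^ 2 + c.im ^ 2 := by
    rw [← Complex.normSq_eq_norm_sq, Complex.normSq_apply]
    ring
  rw [h0]
  unfold ww
  simp
  ring

theorem dot_y (y : ℝ) (b c : ℂ) (p : ℝ × ℝ) :
    ((starRingEnd ℂ) (ww y b c p - b) * (Complex.I * c)).re = -(y * ‖c‖ ^ 2 * p.1) := by
  have h0 : ‖c‖ ^ 2 = c.re ^ 2 + c.im ^ 2 := by
    rw [← Complex.normSq_eq_norm_sq, Complex.normSq_apply]
    ring
  rw [h0]
  unfold ww
  simp
  ring

/-- `A = y e / c` -/
theorem dot_e (hy : 0 < y) (hc : c ≠ 0) (b e : ℂ) (p : ℝ × ℝ) :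
    ((starRingEnd ℂ) (ww y b c p - b) * (Complex.I * e)).re =
      -(‖c‖ ^ 2 * (p.1 * ((y : ℂ) * e / c).re - p.2 * ((y : ℂ) * e / c).im)) := by
  set A : ℂ := (y : ℂ) * e / c with hA
  have hy' : (y : ℂ) ≠ 0 := by exact_mod_cast hy.ne'
  have he : e = A * c / y := by
    rw [hA]
    field_simp
  have h0 : ‖c‖ ^ 2 = c.re ^ 2 + c.im ^ 2 := by
    rw [← Complex.normSq_eq_norm_sq, Complex.normSq_apply]
    ring
  have h1 : (starRingEnd ℂ) (ww y b c p - b) * (Complex.I * e) =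
      -((starRingEnd ℂ) c * c * ((starRingEnd ℂ) ((p.2 : ℂ) + (p.1 : ℂ) * Complex.I) *
        Complex.I * A)) := by
    rw [he]
    unfold ww
    simp only [map_sub, map_mul, map_add, Complex.conj_ofReal, Complex.conj_I]
    field_simp
    ring
  rw [h1, h0]
  simp
  ring

theorem UX_ww (hy : 0 < y) (hc : c ≠ 0) (p : ℝ × ℝ) :
    UX q kap dl y b c (ww y b c p) =
      -(q * y ^ kap * ((y * ‖c‖) ^ 2 * mm (dl / (y * ‖c‖)) p) ^ (-(q / 2) - 1) *
        (y * ‖c‖ ^ 2 * p.2)) := by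
  unfold UX
  rw [MW_ww hy hc, dot_x]
  ring

theorem mem_Om_iff (hq : 0 < q) (hkap : 0 < kap) (hy : 0 < y) (hdl : 0 < dl) (hc : c ≠ 0)
    (p : ℝ × ℝ) :
    (UX q kap dl y b c (ww y b c p) < 0 ∧ UY q kap dl y b c (ww y b c p) < 0) ↔
      p ∈ Om (q / kap) (dl / (y * ‖c‖)) := by
  have hn : 0 < ‖c‖ := norm_pos_iff.mpr hc
  have hd : 0 < dl / (y * ‖c‖) := by positivity
  have hm : 0 < mm (dl / (y * ‖c‖)) p := mm_pos hd p
  set V := y * ‖c‖ with hV
  have hV0 : 0 < V := by positivity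
  have hM : 0 < V ^ 2 * mm (dl / V) p := by positivity
  have h1 : UX q kap dl y b c (ww y b c p) < 0 ↔ 0 < p.2 := by
    rw [UX_ww hy hc, neg_lt_zero]
    have h2 : 0 < q * y ^ kap * (V ^ 2 * mm (dl / V) p) ^ (-(q / 2) - 1) := by positivity
    rw [mul_pos_iff_of_pos_left h2, mul_pos_iff_of_pos_left (by positivity)]
  have h3 : UY q kap dl y b c (ww y b c p) < 0 ↔ kap * mm (dl / V) p < q * p.1 := by
    unfold UY
    rw [MW_ww hy hc, dot_y, ← hV]
    have e1 : (V ^ 2 * mm (dl / V) p) ^ (-(q / 2)) =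
        (V ^ 2 * mm (dl / V) p) ^ (-(q / 2) - 1) * (V ^ 2 * mm (dl / V) p) := by
      rw [← Real.rpow_add_one hM.ne']
      congr 1
      ring
    have e2 : y ^ kap = y ^ (kap - 1) * y := by
      rw [← Real.rpow_add_one hy.ne']
      congr 1
      ring
    have e3 : kap * y ^ (kap - 1) * (V ^ 2 * mm (dl / V) p) ^ (-(q / 2)) +
        q * y ^ kap * (V ^ 2 * mm (dl / V) p) ^ (-(q / 2) - 1) * -(y * ‖c‖ ^ 2 * p.1) =
        (y ^ (kap - 1) * (V ^ 2 * mm (dl / V) p) ^ (-(q / 2) - 1) * V ^ 2) *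
          (kap * mm (dl / V) p - q * p.1) := by
      rw [e1, e2, hV]
      ring
    rw [e3]
    have h4 : 0 < y ^ (kap - 1) * (V ^ 2 * mm (dl / V) p) ^ (-(q / 2) - 1) * V ^ 2 := by
      positivity
    constructor
    · intro h
      by_contra hcon
      push Not at hcon
      have := mul_nonneg h4.le (sub_nonneg.mpr hcon)
      linarith
    · intro h
      exact mul_neg_of_pos_of_neg h4 (by linarith)
  rw [h1, h3]
  unfold Om
  simp only [mem_ofPred_eq]
  have h5 : kap * mm (dl / V) p < q * p.1 ↔ p.1 ^ 2 + p.2 ^ 2 + (dl / V) ^ 2 < q / kap * p.1 := by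
    unfold mm
    rw [div_mul_eq_mul_div, lt_div_iff₀ hkap, mul_comm kap]
  rw [h5]
  constructor
  · rintro ⟨h6, h7⟩
    refine ⟨?_, h6, h7⟩
    have h8 : 0 < q / kap * p.1 := lt_of_le_of_lt (by positivity) h7
    exact (mul_pos_iff_of_pos_left (by positivity)).mp h8
  · rintro ⟨_, h6, h7⟩
    exact ⟨h6, h7⟩

theorem UXY_ww (hq : 0 < q) (hy : 0 < y) (hdl : 0 < dl) (hc : c ≠ 0) (p : ℝ × ℝ) :
    (y * ‖c‖) ^ 2 * UXY q kap dl y b c e (ww y b c p) =
      q * y ^ (kap - q) * ‖c‖ ^ (2 - q) *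
        (((q + 2) * (p.1 * p.2) * mm (dl / (y * ‖c‖)) p ^ (-(q / 2) - 2) -
          kap * (p.2 * mm (dl / (y * ‖c‖)) p ^ (-(q / 2) - 1))) +
        ((y : ℂ) * e / c).im * (p.2 * mm (dl / (y * ‖c‖)) p ^ (-(q / 2) - 1)) -
        ((y : ℂ) * e / c).re * (p.1 * mm (dl / (y * ‖c‖)) p ^ (-(q / 2) - 1))) := by
  have hn : 0 < ‖c‖ := norm_pos_iff.mpr hc
  have hd : 0 < dl / (y * ‖c‖) := by positivity
  have hm : 0 < mm (dl / (y * ‖c‖)) p := mm_pos hd p
  unfold UXY
  rw [MW_ww hy hc, dot_x, dot_y, dot_e hy hc]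
  set V := y * ‖c‖ with hV
  have hV0 : 0 < V := by positivity
  set m := mm (dl / V) p with hmd
  set A : ℂ := (y : ℂ) * e / c with hA
  have e1 : (V ^ 2 * m) ^ (-(q / 2) - 1) = V ^ (-q) * m ^ (-(q / 2) - 1) / V ^ 2 := by
    rw [Real.mul_rpow (by positivity) hm.le, ← Real.rpow_natCast, ← Real.rpow_mul hV0.le,
      mul_div_right_comm, ← Real.rpow_sub hV0]
    congr 2
    push_cast
    ring
  have e2 : (V ^ 2 * m) ^ (-(q / 2) - 2) = V ^ (-q) * m ^ (-(q / 2) - 2) / V ^ 4 := by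
    rw [Real.mul_rpow (by positivity) hm.le, ← Real.rpow_natCast, ← Real.rpow_mul hV0.le,
      mul_div_right_comm, ← Real.rpow_natCast V 4, ← Real.rpow_sub hV0]
    congr 2
    push_cast
    ring
  have e3 : y ^ kap = y ^ (kap - 1) * y := by
    rw [← Real.rpow_add_one hy.ne']
    congr 1
    ring
  have e4 : y ^ (kap - q) * ‖c‖ ^ (2 - q) = y ^ (kap - 1) * y * V ^ (-q) * ‖c‖ ^ 2 := by
    rw [hV, Real.mul_rpow hy.le hn.le, ← e3, ← Real.rpow_natCast ‖c‖ 2]
    have : y ^ (kap - q) * ‖c‖ ^ (2 - q) = (y ^ kap * y ^ (-q)) * (‖c‖ ^ (-q) * ‖c‖ ^ ((2 : ℕ) : ℝ)) := by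
      rw [← Real.rpow_add hy, ← Real.rpow_add hn]
      congr 2
      push_cast
      ring
    rw [this]
    ring
  rw [e1, e2, e3, mul_assoc q (y ^ (kap - q)), e4]
  have hVy : V / y = ‖c‖ := by
    rw [hV]
    field_simp
  rw [← hVy]
  field_simp
  ring

/-- **STEP 3**: the exact integral over `w`. -/
theorem integral_UXY (hq : 0 < q) (hkap : 0 < kap) (hy : 0 < y) (hdl : 0 < dl) (hc : c ≠ 0)
    (b e : ℂ) :
    ∫ w in {w : ℂ | UX q kap dl y b c w < 0 ∧ UY q kap dl y b c w < 0},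
        UXY q kap dl y b c e w =
      q * y ^ (kap - q) * ‖c‖ ^ (2 - q) *
        (X0 q (q / kap) (dl / (y * ‖c‖)) +
          ((y : ℂ) * e / c).im * X1 q (q / kap) (dl / (y * ‖c‖)) -
          ((y : ℂ) * e / c).re * X2 q (q / kap) (dl / (y * ‖c‖))) := by
  have hn : 0 < ‖c‖ := norm_pos_iff.mpr hc
  have hd : 0 < dl / (y * ‖c‖) := by positivity
  have hM : ∀ w : ℂ, 0 < MW dl b w := fun w => by unfold MW; positivity
  have hcont : Continuous (fun w : ℂ => MW dl b w) := by unfold MW; fun_prop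
  have hc1 : Continuous (UX q kap dl y b c) := by
    unfold UX
    have h1 := hcont.rpow_const (p := -(q / 2) - 1) (fun w => Or.inl (hM w).ne')
    fun_prop
  have hc2 : Continuous (UY q kap dl y b c) := by
    unfold UY
    have h1 := hcont.rpow_const (p := -(q / 2) - 1) (fun w => Or.inl (hM w).ne')
    have h2 := hcont.rpow_const (p := -(q / 2)) (fun w => Or.inl (hM w).ne')
    fun_prop
  have hS : MeasurableSet {w : ℂ | UX q kap dl y b c w < 0 ∧ UY q kap dl y b c w < 0} :=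
    ((isOpen_lt hc1 continuous_const).inter (isOpen_lt hc2 continuous_const)).measurableSet
  rw [← integral_indicator hS, integral_ww y hy b c hc, ← integral_const_mul]
  have h1 : ∀ p : ℝ × ℝ, (y * ‖c‖) ^ 2 *
      ({w : ℂ | UX q kap dl y b c w < 0 ∧ UY q kap dl y b c w < 0}.indicator
        (UXY q kap dl y b c e) (ww y b c p)) =
      (Om (q / kap) (dl / (y * ‖c‖))).indicator (fun p => q * y ^ (kap - q) * ‖c‖ ^ (2 - q) *
        (((q + 2) * (p.1 * p.2) * mm (dl / (y * ‖c‖)) p ^ (-(q / 2) - 2) -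
          (q / (q / kap)) * (p.2 * mm (dl / (y * ‖c‖)) p ^ (-(q / 2) - 1))) +
        ((y : ℂ) * e / c).im * (p.2 * mm (dl / (y * ‖c‖)) p ^ (-(q / 2) - 1)) -
        ((y : ℂ) * e / c).re * (p.1 * mm (dl / (y * ‖c‖)) p ^ (-(q / 2) - 1)))) p := by
    intro p
    have hk : q / (q / kap) = kap := by field_simp
    rw [hk]
    by_cases hp : p ∈ Om (q / kap) (dl / (y * ‖c‖))
    · rw [indicator_of_mem hp, indicator_of_mem
        (show ww y b c p ∈ {w : ℂ | UX q kap dl y b c w < 0 ∧ UY q kap dl y b c w < 0} from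
          (mem_Om_iff hq hkap hy hdl hc p).mpr hp)]
      exact UXY_ww hq hy hdl hc p
    · rw [indicator_of_notMem hp, indicator_of_notMem
        (show ww y b c p ∉ {w : ℂ | UX q kap dl y b c w < 0 ∧ UY q kap dl y b c w < 0} from
          fun h => hp ((mem_Om_iff hq hkap hy hdl hc p).mp h)), mul_zero]
  simp_rw [h1]
  rw [integral_indicator (measurableSet_Om _ _), integral_const_mul]
  congr 1
  unfold X0 X1 X2
  have i1 : IntegrableOn (fun p : ℝ × ℝ => (q + 2) * (p.1 * p.2) *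
      mm (dl / (y * ‖c‖)) p ^ (-(q / 2) - 2) -
      (q / (q / kap)) * (p.2 * mm (dl / (y * ‖c‖)) p ^ (-(q / 2) - 1)))
      (Om (q / kap) (dl / (y * ‖c‖))) := by
    apply integrableOn_Om
    have a1 := continuous_mm_rpow hd (-(q / 2) - 2)
    have a2 := continuous_mm_rpow hd (-(q / 2) - 1)
    fun_prop
  have i2 : IntegrableOn (fun p : ℝ × ℝ => p.2 * mm (dl / (y * ‖c‖)) p ^ (-(q / 2) - 1))
      (Om (q / kap) (dl / (y * ‖c‖))) :=
    integrableOn_Om (continuous_snd.mul (continuous_mm_rpow hd _))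
  have i3 : IntegrableOn (fun p : ℝ × ℝ => p.1 * mm (dl / (y * ‖c‖)) p ^ (-(q / 2) - 1))
      (Om (q / kap) (dl / (y * ‖c‖))) :=
    integrableOn_Om (continuous_fst.mul (continuous_mm_rpow hd _))
  have j1 := integral_sub (i1.add (i2.const_mul ((y : ℂ) * e / c).im))
    (i3.const_mul ((y : ℂ) * e / c).re)
  have j2 := integral_add i1 (i2.const_mul ((y : ℂ) * e / c).im)
  simp only [Pi.add_apply] at j1
  rw [j1, j2, integral_const_mul, integral_const_mul]

end params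

end H92.EC
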