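import Pool.Agent.H92.EC.Xw

/-!
# Project EC, STEP 3: measurability in `d` and the limit `delta -> 0` on a compact set
-/

set_option autoImplicit false

open Set MeasureTheory Filter Topology

namespace H92.EC

theorem measurable_param (R : ℝ) (f : ℝ × (ℝ × ℝ) → ℝ) (hf : Measurable f) :
    Measurable (fun d : ℝ => ∫ p in Om R d, f (d, p)) := by
  have hS : MeasurableSet {z : ℝ × (ℝ × ℝ) | z.2 ∈ Om R z.1} := by
    have h1 : MeasurableSet {z : ℝ × (ℝ × ℝ) | 0 < z.2.1} :=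
      measurableSet_lt measurable_const (by fun_prop)
    have h2 : MeasurableSet {z : ℝ × (ℝ × ℝ) | 0 < z.2.2} :=
      measurableSet_lt measurable_const (by fun_prop)
    have h3 : MeasurableSet {z : ℝ × (ℝ × ℝ) | z.2.1 ^ 2 + z.2.2 ^ 2 + z.1 ^ 2 < R * z.2.1} :=
      measurableSet_lt (by fun_prop) (by fun_prop)
    exact h1.inter (h2.inter h3)
  have h0 : ∀ d : ℝ, ∫ p in Om R d, f (d, p) =
      ∫ p, ({z : ℝ × (ℝ × ℝ) | z.2 ∈ Om R z.1}.indicator f) (d, p) := by
    intro d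
    rw [← integral_indicator (measurableSet_Om R d)]
    rfl
  simp_rw [h0]
  exact ((hf.indicator hS).stronglyMeasurable.integral_prod_right').measurable

theorem measurable_mm2 : Measurable (fun z : ℝ × (ℝ × ℝ) => mm z.1 z.2) := by
  unfold mm
  fun_prop

theorem measurable_X0 (q R : ℝ) : Measurable (X0 q R) := by
  apply measurable_param R (fun z => (q + 2) * (z.2.1 * z.2.2) * mm z.1 z.2 ^ (-(q / 2) - 2)
    - (q / R) * (z.2.2 * mm z.1 z.2 ^ (-(q / 2) - 1)))
  have h1 := measurable_mm2.pow_const (-(q / 2) - 2)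
  have h2 := measurable_mm2.pow_const (-(q / 2) - 1)
  fun_prop

theorem measurable_X1 (q R : ℝ) : Measurable (X1 q R) := by
  apply measurable_param R (fun z => z.2.2 * mm z.1 z.2 ^ (-(q / 2) - 1))
  have h2 := measurable_mm2.pow_const (-(q / 2) - 1)
  fun_prop

theorem measurable_X2 (q R : ℝ) : Measurable (X2 q R) := by
  apply measurable_param R (fun z => z.2.1 * mm z.1 z.2 ^ (-(q / 2) - 1))
  have h2 := measurable_mm2.pow_const (-(q / 2) - 1)
  fun_prop

/-- if `Phi (d) -> L` as `d -> 0+`, then `int g Phi(dl / V) -> L int g` -/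
theorem tendsto_integral_comp {α : Type*} [MeasurableSpace α] {μ : Measure α}
    {Φ : ℝ → ℝ} {L V0 : ℝ} {g V : α → ℝ} (hΦ : Tendsto Φ (𝓝[>] 0) (𝓝 L)) (hΦm : Measurable Φ)
    (hg : Integrable g μ) (hV : Measurable V) (hV0 : 0 < V0) (hVV : ∀ᵐ x ∂μ, V0 ≤ V x) :
    Tendsto (fun dl => ∫ x, g x * Φ (dl / V x) ∂μ) (𝓝[>] 0) (𝓝 (L * ∫ x, g x ∂μ)) := by
  have h0 : L * ∫ x, g x ∂μ = ∫ x, g x * L ∂μ := by
    rw [integral_mul_const]
    ring
  rw [h0]
  have hb : ∃ r > 0, ∀ d, 0 < d → d < r → |Φ d| ≤ |L| + 1 := by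
    have h1 := hΦ.eventually (Metric.ball_mem_nhds L one_pos)
    obtain ⟨r, hr, h2⟩ := (mem_nhdsGT_iff_exists_Ioo_subset (α := ℝ)).mp h1
    refine ⟨r, hr, fun d hd1 hd2 => ?_⟩
    have h3 := h2 ⟨hd1, hd2⟩
    simp only [mem_ofPred_eq, Real.dist_eq] at h3
    have := abs_sub_abs_le_abs_sub (Φ d) L
    linarith
  obtain ⟨r, hr, hb⟩ := hb
  apply tendsto_integral_filter_of_dominated_convergence (fun x => ‖g x‖ * (|L| + 1))
  · filter_upwards with dl
    exact hg.aestronglyMeasurable.mul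
      (hΦm.comp (measurable_const.div hV)).aestronglyMeasurable
  · have h1 : Ioo (0 : ℝ) (r * V0) ∈ 𝓝[>] (0 : ℝ) := Ioo_mem_nhdsGT (mul_pos hr hV0)
    filter_upwards [h1] with dl hdl
    filter_upwards [hVV] with x hx
    rw [norm_mul]
    gcongr
    have hVx : 0 < V x := hV0.trans_le hx
    apply hb
    · exact div_pos hdl.1 hVx
    · rw [div_lt_iff₀ hVx]
      calc dl < r * V0 := hdl.2
        _ ≤ r * V x := by gcongr
  · exact hg.norm.mul_const _
  · filter_upwards [hVV] with x hx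
    have hVx : 0 < V x := hV0.trans_le hx
    have h1 : Tendsto (fun dl : ℝ => dl / V x) (𝓝[>] 0) (𝓝[>] 0) := by
      rw [tendsto_nhdsWithin_iff]
      constructor
      · have h2 : Continuous (fun dl : ℝ => dl / V x) := by fun_prop
        have h3 := h2.tendsto 0
        rw [zero_div] at h3
        exact h3.mono_left nhdsWithin_le_nhds
      · filter_upwards [self_mem_nhdsWithin] with dl hdl
        exact div_pos hdl hVx
    exact (hΦ.comp h1).const_mul (g x)

/-- **STEP 3, limit**: `g = y^(kap-q) |F'|^(2-q)` etc. -/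
theorem tendsto_total {α : Type*} [MeasurableSpace α] {μ : Measure α} {q R V0 : ℝ}
    {g k al V : α → ℝ} (hq : 0 < q) (hq1 : q < 1) (hR : 0 < R)
    (hg : Integrable g μ) (hgk : Integrable (fun x => g x * k x) μ)
    (hga : Integrable (fun x => g x * al x) μ) (hV : Measurable V) (hV0 : 0 < V0)
    (hVV : ∀ᵐ x ∂μ, V0 ≤ V x) :
    Tendsto (fun dl => ∫ x, g x * (X0 q R (dl / V x) - (dl / V x) ^ (-q) / q +
        k x * X1 q R (dl / V x) - al x * X2 q R (dl / V x)) ∂μ) (𝓝[>] 0)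
      (𝓝 (-(R ^ (-q) / (q * (1 - q))) * ∫ x, g x ∂μ +
        R ^ (1 - q) / ((1 - q) * (2 - q)) * ∫ x, g x * k x ∂μ -
        X2 q R 0 * ∫ x, g x * al x ∂μ)) := by
  have m0 : Measurable (fun d => X0 q R d - d ^ (-q) / q) :=
    (measurable_X0 q R).sub ((measurable_id.pow_const (-q)).div_const q)
  have h0 := tendsto_integral_comp (tendsto_X0 hq hq1 hR) m0 hg hV hV0 hVV
  have h1 := tendsto_integral_comp (tendsto_X1 hq hq1 hR) (measurable_X1 q R) hgk hV hV0 hVV
  have h2 := tendsto_integral_comp (tendsto_X2 hq hq1 hR) (measurable_X2 q R) hga hV hV0 hVV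
  have b0 : ∀ {Φ : ℝ → ℝ} {L : ℝ} {f : α → ℝ}, Tendsto Φ (𝓝[>] 0) (𝓝 L) → Measurable Φ →
      Integrable f μ → ∀ᶠ dl in 𝓝[>] (0 : ℝ), Integrable (fun x => f x * Φ (dl / V x)) μ := by
    intro Φ L f hΦ hΦm hf
    have hb : ∃ r > 0, ∀ d, 0 < d → d < r → |Φ d| ≤ |L| + 1 := by
      have h1 := hΦ.eventually (Metric.ball_mem_nhds L one_pos)
      obtain ⟨r, hr, h2⟩ := (mem_nhdsGT_iff_exists_Ioo_subset (α := ℝ)).mp h1
      refine ⟨r, hr, fun d hd1 hd2 => ?_⟩
      have h3 := h2 ⟨hd1, hd2⟩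
      simp only [mem_ofPred_eq, Real.dist_eq] at h3
      have := abs_sub_abs_le_abs_sub (Φ d) L
      linarith
    obtain ⟨r, hr, hb⟩ := hb
    have h1 : Ioo (0 : ℝ) (r * V0) ∈ 𝓝[>] (0 : ℝ) := Ioo_mem_nhdsGT (mul_pos hr hV0)
    filter_upwards [h1] with dl hdl
    refine (hf.norm.mul_const (|L| + 1)).mono' (hf.aestronglyMeasurable.mul
      (hΦm.comp (measurable_const.div hV)).aestronglyMeasurable) ?_
    filter_upwards [hVV] with x hx
    rw [norm_mul]
    gcongr
    have hVx : 0 < V x := hV0.trans_le hx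
    apply hb
    · exact div_pos hdl.1 hVx
    · rw [div_lt_iff₀ hVx]
      calc dl < r * V0 := hdl.2
        _ ≤ r * V x := by gcongr
  have i0 := b0 (tendsto_X0 hq hq1 hR) m0 hg
  have i1 := b0 (tendsto_X1 hq hq1 hR) (measurable_X1 q R) hgk
  have i2 := b0 (tendsto_X2 hq hq1 hR) (measurable_X2 q R) hga
  refine ((h0.add h1).sub h2).congr' ?_
  filter_upwards [i0, i1, i2] with dl j0 j1 j2
  have e1 := integral_add j0 j1
  have e2 := integral_sub (j0.add j1) j2
  simp only [Pi.add_apply] at e2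
  rw [← e1, ← e2]
  apply integral_congr_ae
  filter_upwards with x
  ring

end H92.EC
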