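import Mathlib

/-!
# Project EC, STEP 3: the half disc integrals

`Om R d` is the set of all `(a, v)` with `a, v > 0` and `a^2 + v^2 + d^2 < R a`.
-/

set_option autoImplicit false

open Set MeasureTheory Filter Topology

namespace H92.EC

/-- the half disc -/
def Om (R d : ℝ) : Set (ℝ × ℝ) := {p | 0 < p.1 ∧ 0 < p.2 ∧ p.1 ^ 2 + p.2 ^ 2 + d ^ 2 < R * p.1}

/-- `a^2 + v^2 + d^2` -/
def mm (d : ℝ) (p : ℝ × ℝ) : ℝ := p.1 ^ 2 + p.2 ^ 2 + d ^ 2

/-- the constant term -/
noncomputable def X0 (q R d : ℝ) : ℝ :=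
  ∫ p in Om R d, ((q + 2) * (p.1 * p.2) * mm d p ^ (-(q / 2) - 2)
    - (q / R) * (p.2 * mm d p ^ (-(q / 2) - 1)))

/-- the coefficient of `k` -/
noncomputable def X1 (q R d : ℝ) : ℝ := ∫ p in Om R d, p.2 * mm d p ^ (-(q / 2) - 1)

/-- the coefficient of `-al` -/
noncomputable def X2 (q R d : ℝ) : ℝ := ∫ p in Om R d, p.1 * mm d p ^ (-(q / 2) - 1)

theorem measurableSet_Om (R d : ℝ) : MeasurableSet (Om R d) := by
  unfold Om
  apply IsOpen.measurableSet
  have h1 : IsOpen {p : ℝ × ℝ | 0 < p.1} := isOpen_lt continuous_const continuous_fst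
  have h2 : IsOpen {p : ℝ × ℝ | 0 < p.2} := isOpen_lt continuous_const continuous_snd
  have h3 : IsOpen {p : ℝ × ℝ | p.1 ^ 2 + p.2 ^ 2 + d ^ 2 < R * p.1} :=
    isOpen_lt (by fun_prop) (by fun_prop)
  exact h1.inter (h2.inter h3)

theorem Om_subset {R d : ℝ} : Om R d ⊆ Ioo 0 R ×ˢ Ioo 0 R := by
  rintro ⟨a, v⟩ ⟨ha, hv, h⟩
  simp only at ha hv h
  have h1 : a < R := by nlinarith [sq_nonneg d, sq_nonneg v]
  refine ⟨⟨ha, h1⟩, hv, ?_⟩
  simp only
  have hR : 0 < R := ha.trans h1
  by_contra hc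
  push Not at hc
  nlinarith [sq_nonneg d, mul_self_nonneg (a - R / 2), mul_pos hR hR]

theorem continuous_mm (d : ℝ) : Continuous (mm d) := by
  unfold mm
  fun_prop

theorem mm_pos {d : ℝ} (hd : 0 < d) (p : ℝ × ℝ) : 0 < mm d p := by
  unfold mm
  positivity

/-- for `d > 0` every continuous function is integrable on `Om` -/
theorem integrableOn_Om {R d : ℝ} {f : ℝ × ℝ → ℝ} (hf : Continuous f) :
    IntegrableOn f (Om R d) := by
  have h1 : IntegrableOn f (Icc (0, 0) (R, R)) := hf.continuousOn.integrableOn_compact isCompact_Icc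
  refine h1.mono_set (Om_subset.trans ?_)
  rintro ⟨a, v⟩ ⟨h1, h2⟩
  exact ⟨⟨h1.1.le, h2.1.le⟩, h1.2.le, h2.2.le⟩

/-- the slices -/
theorem Om_slice (R d a v : ℝ) : (a, v) ∈ Om R d ↔
    0 < a ∧ v ∈ Ioo 0 (Real.sqrt (R * a - a ^ 2 - d ^ 2)) := by
  simp only [Om, mem_ofPred_eq, mem_Ioo]
  constructor
  · rintro ⟨h1, h2, h3⟩
    refine ⟨h1, h2, ?_⟩
    apply Real.lt_sqrt_of_sq_lt
    linarith
  · rintro ⟨h1, h2, h3⟩
    refine ⟨h1, h2, ?_⟩
    have := (Real.lt_sqrt h2.le).mp h3
    linarith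

theorem integral_Om {R d : ℝ} {f : ℝ × ℝ → ℝ} (hf : IntegrableOn f (Om R d)) :
    ∫ p in Om R d, f p = ∫ a in Ioi (0 : ℝ),
      ∫ v in Ioo 0 (Real.sqrt (R * a - a ^ 2 - d ^ 2)), f (a, v) := by
  rw [← integral_indicator (measurableSet_Om R d), Measure.volume_eq_prod,
    integral_prod _ ((integrable_indicator_iff (measurableSet_Om R d)).mpr hf),
    ← integral_indicator measurableSet_Ioi]
  apply integral_congr_ae
  filter_upwards with a
  by_cases ha : 0 < a
  · rw [indicator_of_mem (by exact ha), ← integral_indicator measurableSet_Ioo]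
    apply integral_congr_ae
    filter_upwards with v
    by_cases hv : v ∈ Ioo 0 (Real.sqrt (R * a - a ^ 2 - d ^ 2))
    · rw [indicator_of_mem ((Om_slice R d a v).mpr ⟨ha, hv⟩), indicator_of_mem hv]
    · rw [indicator_of_notMem (fun h => hv ((Om_slice R d a v).mp h).2), indicator_of_notMem hv]
  · rw [indicator_of_notMem (by exact ha)]
    have : ∀ v, (Om R d).indicator f (a, v) = 0 := fun v =>
      indicator_of_notMem (fun h => ha ((Om_slice R d a v).mp h).1) f
    simp [this]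

/-- `int_0^s v (c + v^2)^(-q/2-1) dv` -/
theorem inner1 {q c s : ℝ} (hq : 0 < q) (hc : 0 < c) (hs : 0 ≤ s) :
    ∫ v in Ioo 0 s, v * (c + v ^ 2) ^ (-(q / 2) - 1) =
      (c ^ (-(q / 2)) - (c + s ^ 2) ^ (-(q / 2))) / q := by
  rw [← integral_Ioc_eq_integral_Ioo, ← intervalIntegral.integral_of_le hs]
  have hpos : ∀ v : ℝ, 0 < c + v ^ 2 := fun v => by positivity
  have h1 : ∀ v ∈ uIcc 0 s, HasDerivAt (fun v : ℝ => (-1 / q) * (c + v ^ 2) ^ (-(q / 2)))
      (v * (c + v ^ 2) ^ (-(q / 2) - 1)) v := by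
    intro v _
    have h2 : HasDerivAt (fun v : ℝ => c + v ^ 2) (2 * v) v := by
      simpa using (hasDerivAt_pow 2 v).const_add c
    refine ((h2.rpow_const (p := -(q / 2)) (Or.inl (hpos v).ne')).const_mul (-1 / q)).congr_deriv ?_
    field_simp
  rw [intervalIntegral.integral_eq_sub_of_hasDerivAt h1]
  · simp only [ne_eq, OfNat.ofNat_ne_zero, not_false_eq_true, zero_pow, add_zero]
    ring
  · apply Continuous.intervalIntegrable
    exact continuous_id.mul ((continuous_const.add (continuous_id.pow 2)).rpow_const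
      (fun v => Or.inl (hpos v).ne'))

/-- `(q + 2) int_0^s v (c + v^2)^(-q/2-2) dv` -/
theorem inner2 {q c s : ℝ} (hc : 0 < c) (hs : 0 ≤ s) :
    ∫ v in Ioo 0 s, (q + 2) * (v * (c + v ^ 2) ^ (-(q / 2) - 2)) =
      c ^ (-(q / 2) - 1) - (c + s ^ 2) ^ (-(q / 2) - 1) := by
  rw [← integral_Ioc_eq_integral_Ioo, ← intervalIntegral.integral_of_le hs]
  have hpos : ∀ v : ℝ, 0 < c + v ^ 2 := fun v => by positivity
  have h1 : ∀ v ∈ uIcc 0 s, HasDerivAt (fun v : ℝ => (-1) * (c + v ^ 2) ^ (-(q / 2) - 1))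
      ((q + 2) * (v * (c + v ^ 2) ^ (-(q / 2) - 2))) v := by
    intro v _
    have h2 : HasDerivAt (fun v : ℝ => c + v ^ 2) (2 * v) v := by
      simpa using (hasDerivAt_pow 2 v).const_add c
    refine ((h2.rpow_const (p := -(q / 2) - 1) (Or.inl (hpos v).ne')).const_mul (-1)).congr_deriv ?_
    have : -(q / 2) - 1 - 1 = -(q / 2) - 2 := by ring
    rw [this]
    ring
  rw [intervalIntegral.integral_eq_sub_of_hasDerivAt h1]
  · simp only [ne_eq, OfNat.ofNat_ne_zero, not_false_eq_true, zero_pow, add_zero]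
    ring
  · apply Continuous.intervalIntegrable
    exact continuous_const.mul (continuous_id.mul ((continuous_const.add (continuous_id.pow 2)).rpow_const
      (fun v => Or.inl (hpos v).ne')))

/-- the smaller root of `a^2 + d^2 = R a` -/
noncomputable def sm (R d : ℝ) : ℝ := (R - Real.sqrt (R ^ 2 - 4 * d ^ 2)) / 2

/-- the larger root -/
noncomputable def sp (R d : ℝ) : ℝ := (R + Real.sqrt (R ^ 2 - 4 * d ^ 2)) / 2

theorem sm_add_sp (R d : ℝ) : sm R d + sp R d = R := by unfold sm sp; ring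

theorem sm_mul_sp {R d : ℝ} (hd : 0 < d) (hR : 2 * d < R) : sm R d * sp R d = d ^ 2 := by
  have h1 : 0 ≤ R ^ 2 - 4 * d ^ 2 := by nlinarith
  unfold sm sp
  have := Real.mul_self_sqrt h1
  nlinarith

theorem sp_ge {R d : ℝ} : R / 2 ≤ sp R d := by
  unfold sp
  have := Real.sqrt_nonneg (R ^ 2 - 4 * d ^ 2)
  linarith

theorem sm_pos {R d : ℝ} (hd : 0 < d) (hR : 2 * d < R) : 0 < sm R d := by
  have h1 := sm_mul_sp hd hR
  have h2 : R / 2 ≤ sp R d := sp_ge
  have h3 : 0 < sp R d := by linarith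
  by_contra hc
  push Not at hc
  nlinarith [sq_nonneg d, pow_pos hd 2]

theorem sm_lt_sp {R d : ℝ} (hd : 0 < d) (hR : 2 * d < R) : sm R d < sp R d := by
  have h1 : 0 < R ^ 2 - 4 * d ^ 2 := by nlinarith
  unfold sm sp
  have := Real.sqrt_pos.mpr h1
  linarith

theorem quad_eq {R d : ℝ} (hd : 0 < d) (hR : 2 * d < R) (a : ℝ) :
    R * a - a ^ 2 - d ^ 2 = (a - sm R d) * (sp R d - a) := by
  have h1 := sm_mul_sp hd hR
  have h2 := sm_add_sp R d
  have h3 : R = sm R d + sp R d := h2.symm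
  calc R * a - a ^ 2 - d ^ 2 = (sm R d + sp R d) * a - a ^ 2 - sm R d * sp R d := by
        rw [h1, ← h3]
    _ = _ := by ring

/-- iterated integral over the slices between the roots -/
theorem integral_Om' {R d : ℝ} (hd : 0 < d) (hR : 2 * d < R) {f : ℝ × ℝ → ℝ}
    (hf : IntegrableOn f (Om R d)) (G : ℝ → ℝ)
    (hG : ∀ a ∈ Ioo (sm R d) (sp R d),
      ∫ v in Ioo 0 (Real.sqrt (R * a - a ^ 2 - d ^ 2)), f (a, v) = G a) :
    ∫ p in Om R d, f p = ∫ a in (sm R d)..(sp R d), G a := by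
  have hlt := sm_lt_sp hd hR
  rw [integral_Om hf, intervalIntegral.integral_of_le hlt.le, integral_Ioc_eq_integral_Ioo]
  rw [← integral_indicator measurableSet_Ioi, ← integral_indicator measurableSet_Ioo]
  apply integral_congr_ae
  filter_upwards with a
  by_cases ha : a ∈ Ioo (sm R d) (sp R d)
  · have ha0 : 0 < a := (sm_pos hd hR).trans ha.1
    rw [indicator_of_mem ha, indicator_of_mem (by exact ha0), hG a ha]
  · rw [indicator_of_notMem ha]
    by_cases ha0 : 0 < a
    · rw [indicator_of_mem (by exact ha0)]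
      have h1 : R * a - a ^ 2 - d ^ 2 ≤ 0 := by
        rw [quad_eq hd hR]
        rw [mem_Ioo, not_and_or] at ha
        push Not at ha
        rcases ha with ha | ha
        · exact mul_nonpos_of_nonpos_of_nonneg (by linarith) (by linarith)
        · exact mul_nonpos_of_nonneg_of_nonpos (by linarith) (by linarith)
      rw [Real.sqrt_eq_zero_of_nonpos h1]
      simp
    · rw [indicator_of_notMem (by exact ha0)]

theorem root_sq {R d a : ℝ} (hd : 0 < d) (hR : 2 * d < R) (ha : a ∈ Ioo (sm R d) (sp R d)) :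
    a ^ 2 + d ^ 2 + Real.sqrt (R * a - a ^ 2 - d ^ 2) ^ 2 = R * a := by
  have h1 : 0 ≤ R * a - a ^ 2 - d ^ 2 := by
    rw [quad_eq hd hR]
    exact mul_nonneg (by linarith [ha.1]) (by linarith [ha.2])
  rw [Real.sq_sqrt h1]
  ring

/-- the weight `mm d p ^ s` is continuous for `d > 0` -/
theorem continuous_mm_rpow {d : ℝ} (hd : 0 < d) (s : ℝ) : Continuous (fun p => mm d p ^ s) :=
  (continuous_mm d).rpow_const (fun p => Or.inl (mm_pos hd p).ne')

theorem X1_eq {q R d : ℝ} (hq : 0 < q) (hd : 0 < d) (hR : 2 * d < R) :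
    X1 q R d = ∫ a in (sm R d)..(sp R d),
      ((a ^ 2 + d ^ 2) ^ (-(q / 2)) - (R * a) ^ (-(q / 2))) / q := by
  unfold X1
  apply integral_Om' hd hR (integrableOn_Om (continuous_snd.mul (continuous_mm_rpow hd _)))
  intro a ha
  have h1 := inner1 (q := q) (c := a ^ 2 + d ^ 2) (s := Real.sqrt (R * a - a ^ 2 - d ^ 2)) hq
    (by positivity) (Real.sqrt_nonneg _)
  rw [root_sq hd hR ha] at h1
  rw [← h1]
  apply setIntegral_congr_fun measurableSet_Ioo
  intro v _
  show v * (a ^ 2 + v ^ 2 + d ^ 2) ^ (-(q / 2) - 1) = v * (a ^ 2 + d ^ 2 + v ^ 2) ^ (-(q / 2) - 1)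
  congr 2
  ring

/-- the first part of `X0` -/
noncomputable def X0a (q R d : ℝ) : ℝ :=
  ∫ p in Om R d, (q + 2) * (p.1 * p.2) * mm d p ^ (-(q / 2) - 2)

theorem X0_eq {q R d : ℝ} (hd : 0 < d) : X0 q R d = X0a q R d - (q / R) * X1 q R d := by
  unfold X0 X0a X1
  rw [← integral_const_mul, ← integral_sub]
  · exact integrableOn_Om ((continuous_const.mul (continuous_fst.mul continuous_snd)).mul
      (continuous_mm_rpow hd _))
  · exact (integrableOn_Om (continuous_snd.mul (continuous_mm_rpow hd _))).const_mul _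

theorem X0a_eq {q R d : ℝ} (hd : 0 < d) (hR : 2 * d < R) :
    X0a q R d = ∫ a in (sm R d)..(sp R d),
      (a * (a ^ 2 + d ^ 2) ^ (-(q / 2) - 1) - a * (R * a) ^ (-(q / 2) - 1)) := by
  unfold X0a
  apply integral_Om' hd hR (integrableOn_Om ((continuous_const.mul
    (continuous_fst.mul continuous_snd)).mul (continuous_mm_rpow hd _)))
  intro a ha
  have h1 := inner2 (q := q) (c := a ^ 2 + d ^ 2) (s := Real.sqrt (R * a - a ^ 2 - d ^ 2))
    (by positivity) (Real.sqrt_nonneg _)
  rw [root_sq hd hR ha] at h1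
  rw [← mul_sub, ← h1, ← integral_const_mul]
  apply setIntegral_congr_fun measurableSet_Ioo
  intro v _
  show (q + 2) * (a * v) * (a ^ 2 + v ^ 2 + d ^ 2) ^ (-(q / 2) - 2) =
    a * ((q + 2) * (v * (a ^ 2 + d ^ 2 + v ^ 2) ^ (-(q / 2) - 2)))
  have : a ^ 2 + v ^ 2 + d ^ 2 = a ^ 2 + d ^ 2 + v ^ 2 := by ring
  rw [this]
  ring

theorem X0a_closed {q R d : ℝ} (hq : 0 < q) (hq1 : q < 1) (hd : 0 < d) (hR : 2 * d < R) :
    X0a q R d = ((R * sm R d) ^ (-(q / 2)) - (R * sp R d) ^ (-(q / 2))) / q -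
      R ^ (-(q / 2) - 1) * ((sp R d ^ (1 - q / 2) - sm R d ^ (1 - q / 2)) / (1 - q / 2)) := by
  have hR0 : 0 < R := by linarith
  have hsm := sm_pos hd hR
  have hlt := sm_lt_sp hd hR
  rw [X0a_eq hd hR]
  have hpos : ∀ a : ℝ, 0 < a ^ 2 + d ^ 2 := fun a => by positivity
  have hc1 : Continuous (fun a : ℝ => a * (a ^ 2 + d ^ 2) ^ (-(q / 2) - 1)) :=
    continuous_id.mul (((continuous_id.pow 2).add continuous_const).rpow_const
      (fun v => Or.inl (hpos v).ne'))
  have hc2 : ContinuousOn (fun a : ℝ => a * (R * a) ^ (-(q / 2) - 1)) (uIcc (sm R d) (sp R d)) := by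
    rw [uIcc_of_le hlt.le]
    apply continuousOn_id.mul
    apply ContinuousOn.rpow_const (by fun_prop)
    intro a ha
    exact Or.inl (mul_pos hR0 (hsm.trans_le ha.1)).ne'
  rw [intervalIntegral.integral_sub (hc1.intervalIntegrable _ _) hc2.intervalIntegrable]
  have e1 : ∫ a in (sm R d)..(sp R d), a * (a ^ 2 + d ^ 2) ^ (-(q / 2) - 1) =
      ((R * sm R d) ^ (-(q / 2)) - (R * sp R d) ^ (-(q / 2))) / q := by
    have h1 : ∀ a ∈ uIcc (sm R d) (sp R d), HasDerivAt
        (fun a : ℝ => (-1 / q) * (a ^ 2 + d ^ 2) ^ (-(q / 2)))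
        (a * (a ^ 2 + d ^ 2) ^ (-(q / 2) - 1)) a := by
      intro a _
      have h2 : HasDerivAt (fun a : ℝ => a ^ 2 + d ^ 2) (2 * a) a := by
        simpa using (hasDerivAt_pow 2 a).add_const (d ^ 2)
      refine ((h2.rpow_const (p := -(q / 2)) (Or.inl (hpos a).ne')).const_mul (-1 / q)).congr_deriv ?_
      field_simp
    rw [intervalIntegral.integral_eq_sub_of_hasDerivAt h1 (hc1.intervalIntegrable _ _)]
    have h3 : sm R d ^ 2 + d ^ 2 = R * sm R d := by
      have := quad_eq hd hR (sm R d)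
      rw [sub_self, zero_mul] at this
      linarith
    have h4 : sp R d ^ 2 + d ^ 2 = R * sp R d := by
      have := quad_eq hd hR (sp R d)
      rw [sub_self, mul_zero] at this
      linarith
    rw [h3, h4]
    ring
  have e2 : ∫ a in (sm R d)..(sp R d), a * (R * a) ^ (-(q / 2) - 1) =
      R ^ (-(q / 2) - 1) * ((sp R d ^ (1 - q / 2) - sm R d ^ (1 - q / 2)) / (1 - q / 2)) := by
    have h5 : ∫ a in (sm R d)..(sp R d), a * (R * a) ^ (-(q / 2) - 1) =
        ∫ a in (sm R d)..(sp R d), R ^ (-(q / 2) - 1) * a ^ (-(q / 2)) := by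
      apply intervalIntegral.integral_congr
      intro a ha
      rw [uIcc_of_le hlt.le] at ha
      have ha0 : 0 < a := hsm.trans_le ha.1
      simp only
      rw [Real.mul_rpow hR0.le ha0.le]
      have : a ^ (-(q / 2)) = a * a ^ (-(q / 2) - 1) := by
        rw [← Real.rpow_one_add' ha0.le (by linarith)]
        congr 1
        ring
      rw [this]
      ring
    rw [h5, intervalIntegral.integral_const_mul, integral_rpow (Or.inl (by linarith))]
    have : -(q / 2) + 1 = 1 - q / 2 := by ring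
    rw [this]
  rw [e1, e2]

theorem tendsto_sm {R : ℝ} (hR : 0 < R) : Tendsto (sm R) (𝓝[>] 0) (𝓝 0) := by
  have h1 : Continuous (sm R) := by
    unfold sm
    fun_prop
  have h2 : sm R 0 = 0 := by
    unfold sm
    have : Real.sqrt (R ^ 2 - 4 * 0 ^ 2) = R := by
      rw [show R ^ 2 - 4 * 0 ^ 2 = R ^ 2 by ring]
      exact Real.sqrt_sq hR.le
    rw [this]
    ring
  have h3 := h1.tendsto 0
  rw [h2] at h3
  exact h3.mono_left nhdsWithin_le_nhds

theorem tendsto_sp {R : ℝ} (hR : 0 < R) : Tendsto (sp R) (𝓝[>] 0) (𝓝 R) := by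
  have h1 : ∀ d, sp R d = R - sm R d := fun d => by linarith [sm_add_sp R d]
  have h2 := (tendsto_sm hR).const_sub R
  rw [sub_zero] at h2
  exact h2.congr (fun d => (h1 d).symm)

theorem eventually_small {R : ℝ} (hR : 0 < R) : ∀ᶠ d in 𝓝[>] (0 : ℝ), 0 < d ∧ 2 * d < R := by
  have h1 : Ioo (0 : ℝ) (R / 2) ∈ 𝓝[>] (0 : ℝ) := Ioo_mem_nhdsGT (by linarith)
  filter_upwards [h1] with d hd
  exact ⟨hd.1, by linarith [hd.2]⟩

/-- `(R s_-)^(-q/2) - d^(-q) -> 0` -/
theorem tendsto_small {q R : ℝ} (hq : 0 < q) (hq1 : q < 1) (hR : 0 < R) :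
    Tendsto (fun d => (R * sm R d) ^ (-(q / 2)) - d ^ (-q)) (𝓝[>] 0) (𝓝 0) := by
  have key : ∀ᶠ d in 𝓝[>] (0 : ℝ), -(2 / R ^ 2 * d ^ (2 - q)) ≤
      (R * sm R d) ^ (-(q / 2)) - d ^ (-q) ∧ (R * sm R d) ^ (-(q / 2)) - d ^ (-q) ≤ 0 := by
    filter_upwards [eventually_small hR] with d hd
    obtain ⟨hd, hR2⟩ := hd
    have hsp : R / 2 ≤ sp R d := sp_ge
    have hsp0 : 0 < sp R d := by linarith
    have hsm := sm_pos hd hR2
    have hmul := sm_mul_sp hd hR2
    have hadd := sm_add_sp R d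
    set x := sp R d / R with hx
    have hx0 : 0 < x := div_pos hsp0 hR
    have hx1 : x ≤ 1 := by
      rw [hx, div_le_one hR]
      linarith
    have e1 : R * sm R d = d ^ 2 * x⁻¹ := by
      rw [hx, ← hmul]
      field_simp
    have e2 : (R * sm R d) ^ (-(q / 2)) = d ^ (-q) * x ^ (q / 2) := by
      rw [e1, Real.mul_rpow (by positivity) (by positivity), Real.inv_rpow hx0.le,
        Real.rpow_neg hx0.le, inv_inv, ← Real.rpow_natCast, ← Real.rpow_mul hd.le]
      congr 2
      push_cast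
      ring
    have hxq : x ≤ x ^ (q / 2) := by
      conv_lhs => rw [← Real.rpow_one x]
      exact Real.rpow_le_rpow_of_exponent_ge hx0 hx1 (by linarith)
    have hxq1 : x ^ (q / 2) ≤ 1 := Real.rpow_le_one hx0.le hx1 (by linarith)
    have hdq : 0 < d ^ (-q) := Real.rpow_pos_of_pos hd _
    have h1x : 1 - x ≤ 2 / R ^ 2 * d ^ 2 := by
      have h2 : 1 - x = sm R d / R := by
        rw [hx]
        field_simp
        linarith
      have h3 : sm R d ≤ 2 * d ^ 2 / R := by
        rw [le_div_iff₀ hR, ← hmul]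
        nlinarith
      rw [h2]
      calc sm R d / R ≤ (2 * d ^ 2 / R) / R := by gcongr
        _ = _ := by field_simp
    have hd2 : d ^ (2 - q) = d ^ (-q) * d ^ 2 := by
      rw [← Real.rpow_natCast d 2, ← Real.rpow_add hd]
      congr 1
      push_cast
      ring
    rw [e2, hd2]
    constructor
    · nlinarith
    · nlinarith
  have h1 : Tendsto (fun d : ℝ => -(2 / R ^ 2 * d ^ (2 - q))) (𝓝[>] 0) (𝓝 0) := by
    have h2 : ContinuousAt (fun d : ℝ => d ^ (2 - q)) 0 :=
      Real.continuousAt_rpow_const 0 (2 - q) (Or.inr (by linarith))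
    have h3 : Tendsto (fun d : ℝ => d ^ (2 - q)) (𝓝 0) (𝓝 0) := by
      have := h2.tendsto
      rwa [Real.zero_rpow (by linarith)] at this
    have h4 := ((h3.const_mul (2 / R ^ 2)).neg).mono_left (nhdsWithin_le_nhds (s := Ioi (0 : ℝ)))
    simpa using h4
  refine tendsto_of_tendsto_of_tendsto_of_le_of_le' h1 tendsto_const_nhds ?_ ?_
  · exact key.mono fun d hd => hd.1
  · exact key.mono fun d hd => hd.2

theorem tendsto_X0a {q R : ℝ} (hq : 0 < q) (hq1 : q < 1) (hR : 0 < R) :
    Tendsto (fun d => X0a q R d - d ^ (-q) / q) (𝓝[>] 0)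
      (𝓝 (-(R ^ (-q) / q) - R ^ (-q) / (1 - q / 2))) := by
  have h1 := tendsto_small hq hq1 hR
  have h2 : Tendsto (fun d => (R * sp R d) ^ (-(q / 2))) (𝓝[>] 0) (𝓝 ((R * R) ^ (-(q / 2)))) :=
    ((tendsto_sp hR).const_mul R).rpow_const (Or.inl (mul_pos hR hR).ne')
  have h3 : Tendsto (fun d => sp R d ^ (1 - q / 2)) (𝓝[>] 0) (𝓝 (R ^ (1 - q / 2))) :=
    (tendsto_sp hR).rpow_const (Or.inl hR.ne')
  have h4 : Tendsto (fun d => sm R d ^ (1 - q / 2)) (𝓝[>] 0) (𝓝 0) := by
    have := (tendsto_sm hR).rpow_const (p := 1 - q / 2) (Or.inr (by linarith))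
    rwa [Real.zero_rpow (by linarith)] at this
  have h5 := (((h1.sub h2).div_const q)).sub
    (((h3.sub h4).div_const (1 - q / 2)).const_mul (R ^ (-(q / 2) - 1)))
  have e : (0 - (R * R) ^ (-(q / 2))) / q -
      R ^ (-(q / 2) - 1) * ((R ^ (1 - q / 2) - 0) / (1 - q / 2)) =
      -(R ^ (-q) / q) - R ^ (-q) / (1 - q / 2) := by
    have e1 : (R * R) ^ (-(q / 2)) = R ^ (-q) := by
      rw [Real.mul_rpow hR.le hR.le, ← Real.rpow_add hR]
      congr 1
      ring
    have e2 : R ^ (-(q / 2) - 1) * R ^ (1 - q / 2) = R ^ (-q) := by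
      rw [← Real.rpow_add hR]
      congr 1
      ring
    rw [e1, ← e2]
    ring
  rw [e] at h5
  refine h5.congr' ?_
  filter_upwards [eventually_small hR] with d hd
  rw [X0a_closed hq hq1 hd.1 hd.2]
  ring

theorem tendsto_X1 {q R : ℝ} (hq : 0 < q) (hq1 : q < 1) (hR : 0 < R) :
    Tendsto (fun d => X1 q R d) (𝓝[>] 0) (𝓝 (R ^ (1 - q) / ((1 - q) * (2 - q)))) := by
  have hval : ∫ a in Ioo 0 R, (a ^ (-q) - (R * a) ^ (-(q / 2))) / q =
      R ^ (1 - q) / ((1 - q) * (2 - q)) := by
    rw [← integral_Ioc_eq_integral_Ioo, ← intervalIntegral.integral_of_le hR.le,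
      intervalIntegral.integral_div]
    have e0 : ∫ a in (0 : ℝ)..R, (a ^ (-q) - (R * a) ^ (-(q / 2))) =
        ∫ a in (0 : ℝ)..R, (a ^ (-q) - R ^ (-(q / 2)) * a ^ (-(q / 2))) := by
      apply intervalIntegral.integral_congr
      intro a ha
      rw [uIcc_of_le hR.le] at ha
      simp only
      rw [Real.mul_rpow hR.le ha.1]
    rw [e0, intervalIntegral.integral_sub, intervalIntegral.integral_const_mul,
      integral_rpow (Or.inl (by linarith)), integral_rpow (Or.inl (by linarith)),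
      Real.zero_rpow (by linarith), Real.zero_rpow (by linarith)]
    · have e2 : R ^ (-(q / 2)) * ((R ^ (-(q / 2) + 1) - 0) / (-(q / 2) + 1)) =
          R ^ (1 - q) / (1 - q / 2) := by
        have e3 : R ^ (-(q / 2)) * R ^ (-(q / 2) + 1) = R ^ (1 - q) := by
          rw [← Real.rpow_add hR]
          congr 1
          ring
        rw [← e3]
        ring
      rw [e2, show -q + 1 = 1 - q by ring]
      have h1 : 1 - q ≠ 0 := by linarith
      have h2 : 2 - q ≠ 0 := by linarith
      have h3 : 1 - q / 2 ≠ 0 := by linarith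
      field_simp
      ring
    · exact intervalIntegral.intervalIntegrable_rpow' (by linarith)
    · exact (intervalIntegral.intervalIntegrable_rpow' (by linarith)).const_mul _
  have hd1 : Tendsto (fun d => ∫ a, (Ioo (sm R d) (sp R d)).indicator
      (fun a => ((a ^ 2 + d ^ 2) ^ (-(q / 2)) - (R * a) ^ (-(q / 2))) / q) a) (𝓝[>] 0)
      (𝓝 (∫ a, (Ioo 0 R).indicator (fun a => (a ^ (-q) - (R * a) ^ (-(q / 2))) / q) a)) := by
    apply tendsto_integral_filter_of_dominated_convergence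
      (fun a => (Ioo 0 R).indicator (fun a => a ^ (-q) / q) a)
    · filter_upwards with d
      apply Measurable.aestronglyMeasurable
      apply Measurable.indicator _ measurableSet_Ioo
      fun_prop
    · filter_upwards [eventually_small hR] with d hd
      filter_upwards with a
      obtain ⟨hd, hR2⟩ := hd
      by_cases ha : a ∈ Ioo (sm R d) (sp R d)
      · have hsm := sm_pos hd hR2
        have ha0 : 0 < a := hsm.trans ha.1
        have haR : a < R := by linarith [sm_add_sp R d, ha.2]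
        rw [indicator_of_mem ha, indicator_of_mem (show a ∈ Ioo 0 R from ⟨ha0, haR⟩)]
        have h1 : a ^ 2 + d ^ 2 ≤ R * a := by
          have := quad_eq hd hR2 a
          nlinarith [mul_pos (sub_pos.mpr ha.1) (sub_pos.mpr ha.2)]
        have h2 : (R * a) ^ (-(q / 2)) ≤ (a ^ 2 + d ^ 2) ^ (-(q / 2)) :=
          Real.rpow_le_rpow_of_nonpos (by positivity) h1 (by linarith)
        have h3 : (a ^ 2 + d ^ 2) ^ (-(q / 2)) ≤ (a ^ 2) ^ (-(q / 2)) :=
          Real.rpow_le_rpow_of_nonpos (by positivity) (by nlinarith) (by linarith)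
        have h4 : (a ^ 2) ^ (-(q / 2)) = a ^ (-q) := by
          rw [← Real.rpow_natCast, ← Real.rpow_mul ha0.le]
          congr 1
          push_cast
          ring
        have h5 : 0 ≤ (R * a) ^ (-(q / 2)) := Real.rpow_nonneg (by positivity) _
        rw [Real.norm_eq_abs, abs_of_nonneg (div_nonneg (by linarith) hq.le)]
        gcongr
        linarith
      · rw [indicator_of_notMem ha, norm_zero]
        apply indicator_nonneg
        intro a ha
        exact div_nonneg (Real.rpow_nonneg ha.1.le _) hq.le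
    · rw [integrable_indicator_iff measurableSet_Ioo]
      have h1 : IntervalIntegrable (fun a : ℝ => a ^ (-q) / q) volume 0 R :=
        (intervalIntegral.intervalIntegrable_rpow' (by linarith)).div_const _
      exact (intervalIntegrable_iff_integrableOn_Ioo_of_le hR.le).mp h1
    · filter_upwards with a
      by_cases ha : a ∈ Ioo 0 R
      · rw [indicator_of_mem ha]
        have h1 : ∀ᶠ d in 𝓝[>] (0 : ℝ), a ∈ Ioo (sm R d) (sp R d) := by
          filter_upwards [(tendsto_sm hR).eventually (eventually_lt_nhds ha.1),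
            (tendsto_sp hR).eventually (eventually_gt_nhds ha.2)] with d h1 h2
          exact ⟨h1, h2⟩
        have h2 : Tendsto (fun d : ℝ => a ^ 2 + d ^ 2) (𝓝[>] 0) (𝓝 (a ^ 2)) := by
          have : Continuous (fun d : ℝ => a ^ 2 + d ^ 2) := by fun_prop
          have h := this.tendsto 0
          simp only [ne_eq, OfNat.ofNat_ne_zero, not_false_eq_true, zero_pow, add_zero] at h
          exact h.mono_left nhdsWithin_le_nhds
        have h3 := h2.rpow_const (p := -(q / 2)) (Or.inl (pow_pos ha.1 2).ne')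
        have h4 : (a ^ 2) ^ (-(q / 2)) = a ^ (-q) := by
          rw [← Real.rpow_natCast, ← Real.rpow_mul ha.1.le]
          congr 1
          push_cast
          ring
        rw [h4] at h3
        refine ((h3.sub_const _).div_const q).congr' ?_
        filter_upwards [h1] with d hd
        rw [indicator_of_mem hd]
      · rw [indicator_of_notMem ha]
        refine tendsto_const_nhds.congr' ?_
        filter_upwards [eventually_small hR] with d hd
        obtain ⟨hd, hR2⟩ := hd
        rw [indicator_of_notMem]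
        intro h
        apply ha
        exact ⟨(sm_pos hd hR2).trans h.1, by linarith [sm_add_sp R d, h.2, sm_pos hd hR2]⟩
  rw [integral_indicator measurableSet_Ioo, hval] at hd1
  refine hd1.congr' ?_
  filter_upwards [eventually_small hR] with d hd
  obtain ⟨hd, hR2⟩ := hd
  rw [X1_eq hq hd hR2, intervalIntegral.integral_of_le (sm_lt_sp hd hR2).le,
    integral_Ioc_eq_integral_Ioo, integral_indicator measurableSet_Ioo]

/-- the limit of `X0` -/
theorem tendsto_X0 {q R : ℝ} (hq : 0 < q) (hq1 : q < 1) (hR : 0 < R) :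
    Tendsto (fun d => X0 q R d - d ^ (-q) / q) (𝓝[>] 0)
      (𝓝 (-(R ^ (-q) / (q * (1 - q))))) := by
  have h1 := (tendsto_X0a hq hq1 hR).sub ((tendsto_X1 hq hq1 hR).const_mul (q / R))
  have e : -(R ^ (-q) / q) - R ^ (-q) / (1 - q / 2) -
      q / R * (R ^ (1 - q) / ((1 - q) * (2 - q))) = -(R ^ (-q) / (q * (1 - q))) := by
    have e1 : R ^ (1 - q) = R * R ^ (-q) := by
      rw [← Real.rpow_one_add' hR.le (by linarith)]
      congr 1
    rw [e1]
    have h1 : 1 - q ≠ 0 := by linarith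
    have h2 : 2 - q ≠ 0 := by linarith
    have h3 : 1 - q / 2 ≠ 0 := by linarith
    field_simp
    ring
  rw [e] at h1
  refine h1.congr' ?_
  filter_upwards [self_mem_nhdsWithin] with d hd
  rw [X0_eq hd]
  ring

/-- a product weight which dominates the singular kernels -/
theorem dom_bound {q a v d : ℝ} (hq : 0 < q) (ha : 0 < a) (hv : 0 < v) :
    a * (a ^ 2 + v ^ 2 + d ^ 2) ^ (-(q / 2) - 1) ≤ a ^ (-((q + 1) / 2)) * v ^ (-((q + 1) / 2)) := by
  set m := a ^ 2 + v ^ 2 + d ^ 2 with hm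
  have hm0 : 0 < m := by positivity
  set r := Real.sqrt m with hr
  have hr0 : 0 < r := Real.sqrt_pos.mpr hm0
  have har : a ≤ r := Real.le_sqrt_of_sq_le (by rw [hm]; nlinarith [sq_nonneg v, sq_nonneg d])
  have hvr : v ≤ r := Real.le_sqrt_of_sq_le (by rw [hm]; nlinarith [sq_nonneg a, sq_nonneg d])
  have h1 : m ^ (-(q / 2) - 1) = r ^ (-(q + 2)) := by
    rw [hr, Real.sqrt_eq_rpow, ← Real.rpow_mul hm0.le]
    congr 1
    ring
  have h2 : a = a ^ (-((q + 1) / 2)) * a ^ ((q + 3) / 2) := by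
    rw [← Real.rpow_add ha]
    conv_lhs => rw [← Real.rpow_one a]
    congr 1
    ring
  have h3 : a ^ ((q + 3) / 2) ≤ r ^ ((q + 3) / 2) :=
    Real.rpow_le_rpow ha.le har (by linarith)
  have h4 : r ^ (-((q + 1) / 2)) ≤ v ^ (-((q + 1) / 2)) :=
    Real.rpow_le_rpow_of_nonpos hv hvr (by linarith)
  have h5 : r ^ ((q + 3) / 2) * r ^ (-(q + 2)) = r ^ (-((q + 1) / 2)) := by
    rw [← Real.rpow_add hr0]
    congr 1
    ring
  rw [h1]
  calc a * r ^ (-(q + 2)) = a ^ (-((q + 1) / 2)) * (a ^ ((q + 3) / 2) * r ^ (-(q + 2))) := by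
        conv_lhs => rw [h2]
        ring
    _ ≤ a ^ (-((q + 1) / 2)) * (r ^ ((q + 3) / 2) * r ^ (-(q + 2))) := by gcongr
    _ = a ^ (-((q + 1) / 2)) * r ^ (-((q + 1) / 2)) := by rw [h5]
    _ ≤ a ^ (-((q + 1) / 2)) * v ^ (-((q + 1) / 2)) := by gcongr

theorem integrableOn_dom {q R : ℝ} (hq1 : q < 1) (hR : 0 < R) :
    IntegrableOn (fun p : ℝ × ℝ => p.1 ^ (-((q + 1) / 2)) * p.2 ^ (-((q + 1) / 2)))
      (Ioo 0 R ×ˢ Ioo 0 R) := by
  have h1 : IntegrableOn (fun a : ℝ => a ^ (-((q + 1) / 2))) (Ioo 0 R) :=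
    (intervalIntegrable_iff_integrableOn_Ioo_of_le hR.le).mp
      (intervalIntegral.intervalIntegrable_rpow' (by linarith))
  unfold IntegrableOn
  rw [Measure.volume_eq_prod, ← Measure.prod_restrict]
  exact h1.mul_prod h1

/-- `X2` has a limit -/
theorem tendsto_X2 {q R : ℝ} (hq : 0 < q) (hq1 : q < 1) (hR : 0 < R) :
    Tendsto (fun d => X2 q R d) (𝓝[>] 0) (𝓝 (X2 q R 0)) := by
  unfold X2
  have hd1 : Tendsto (fun d => ∫ p, (Om R d).indicator
      (fun p => p.1 * mm d p ^ (-(q / 2) - 1)) p) (𝓝[>] 0)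
      (𝓝 (∫ p, (Om R 0).indicator (fun p => p.1 * mm 0 p ^ (-(q / 2) - 1)) p)) := by
    apply tendsto_integral_filter_of_dominated_convergence
      (fun p => (Ioo 0 R ×ˢ Ioo 0 R).indicator
        (fun p => p.1 ^ (-((q + 1) / 2)) * p.2 ^ (-((q + 1) / 2))) p)
    · filter_upwards with d
      apply Measurable.aestronglyMeasurable
      apply Measurable.indicator _ (measurableSet_Om R d)
      exact measurable_fst.mul ((continuous_mm d).measurable.pow_const _)
    · filter_upwards with d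
      filter_upwards with p
      by_cases hp : p ∈ Om R d
      · rw [indicator_of_mem hp, indicator_of_mem (Om_subset hp), Real.norm_eq_abs,
          abs_of_nonneg (mul_nonneg hp.1.le (Real.rpow_nonneg (by unfold mm; positivity) _))]
        exact dom_bound hq hp.1 hp.2.1
      · rw [indicator_of_notMem hp, norm_zero]
        apply indicator_nonneg
        rintro ⟨a, v⟩ ⟨ha, hv⟩
        exact mul_nonneg (Real.rpow_nonneg ha.1.le _) (Real.rpow_nonneg hv.1.le _)
    · rw [integrable_indicator_iff (measurableSet_Ioo.prod measurableSet_Ioo)]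
      exact integrableOn_dom hq1 hR
    · filter_upwards with p
      have h2 : Tendsto (fun d : ℝ => mm d p) (𝓝[>] 0) (𝓝 (mm 0 p)) := by
        have : Continuous (fun d : ℝ => mm d p) := by unfold mm; fun_prop
        exact (this.tendsto 0).mono_left nhdsWithin_le_nhds
      by_cases hp : p ∈ Om R 0
      · rw [indicator_of_mem hp]
        have hpos : 0 < mm 0 p := by
          unfold mm
          have := hp.1
          positivity
        have h3 := h2.rpow_const (p := -(q / 2) - 1) (Or.inl hpos.ne')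
        have h1 : ∀ᶠ d in 𝓝[>] (0 : ℝ), p ∈ Om R d := by
          have h4 : mm 0 p < R * p.1 := by
            unfold mm
            exact hp.2.2
          filter_upwards [h2.eventually (eventually_lt_nhds h4)] with d hd
          exact ⟨hp.1, hp.2.1, hd⟩
        refine (h3.const_mul p.1).congr' ?_
        filter_upwards [h1] with d hd
        rw [indicator_of_mem hd]
      · rw [indicator_of_notMem hp]
        refine tendsto_const_nhds.congr' ?_
        filter_upwards with d
        rw [indicator_of_notMem]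
        intro h
        apply hp
        refine ⟨h.1, h.2.1, ?_⟩
        have := h.2.2
        nlinarith [sq_nonneg d]
  rw [integral_indicator (measurableSet_Om R 0)] at hd1
  refine hd1.congr' ?_
  filter_upwards with d
  rw [integral_indicator (measurableSet_Om R d)]

end H92.EC
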